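import Pool.Agent.W548.MQ.Stm

open Polynomial

namespace W897.MQ

open W548.MQ

theorem fs : Algebra.FormallySmooth ℚ A := by
  refine Algebra.FormallySmooth.of_comp_surjective fun B _ _ I hI f => ?_
  obtain ⟨X0, hX0⟩ := Ideal.Quotient.mk_surjective (f x)
  obtain ⟨Y0, hY0⟩ := Ideal.Quotient.mk_surjective (f y)
  have heps : X0 ^ 2 + Y0 ^ 2 - 1 ∈ I := by
    rw [← Ideal.Quotient.eq_zero_iff_mem]
    rw [map_sub, map_add, map_pow, map_pow, map_one, hX0, hY0, ← map_pow, ← map_pow, ← map_add,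
      circle, map_one, sub_self]
  set ε : B := X0 ^ 2 + Y0 ^ 2 - 1 with hε
  have hε2 : ε ^ 2 = 0 := by
    have : ε ^ 2 ∈ I ^ 2 := Ideal.pow_mem_pow heps 2
    rw [hI] at this
    simpa using this
  set h : B := algebraMap ℚ B (1 / 2) with hh
  have h2 : 2 * h = 1 := by
    rw [hh, show (2 : B) = algebraMap ℚ B 2 from (map_ofNat (algebraMap ℚ B) 2).symm, ← map_mul]
    norm_num
  set X1 : B := X0 - ε * X0 * h with hX1
  set Y1 : B := Y0 - ε * Y0 * h with hY1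
  have key : Y1 ^ 2 - (1 - X1 ^ 2) = 0 := by
    have : Y1 ^ 2 - (1 - X1 ^ 2) = ε - (2 * h) * ε * (X0 ^ 2 + Y0 ^ 2)
        + h ^ 2 * (X0 ^ 2 + Y0 ^ 2) * ε ^ 2 := by
      rw [hX1, hY1, hε]; ring
    rw [this, h2, hε2]
    have h3 : X0 ^ 2 + Y0 ^ 2 = 1 + ε := by rw [hε]; ring
    rw [h3]
    linear_combination -hε2
  have hP : eval₂ (↑(aeval (R := ℚ) X1) : ℚ[X] →+* B) Y1 P = 0 := by
    simp only [P, eval₂_sub, eval₂_pow, eval₂_X, eval₂_C]
    simpa using key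
  refine ⟨AdjoinRoot.liftAlgHom P (aeval X1) Y1 hP, ?_⟩
  · refine AdjoinRoot.algHom_ext' ?_ ?_
    · refine Polynomial.algHom_ext ?_
      have e1 : AdjoinRoot.liftAlgHom P (aeval X1) Y1 hP (AdjoinRoot.of P X) = X1 := by
        rw [AdjoinRoot.liftAlgHom_of]; simp
      change Ideal.Quotient.mk I (AdjoinRoot.liftAlgHom P (aeval X1) Y1 hP (AdjoinRoot.of P X)) = f x
      rw [e1, ← hX0, hX1, Ideal.Quotient.eq]
      have : X0 - ε * X0 * h - X0 = (- (X0 * h)) * ε := by ring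
      rw [this]
      exact I.mul_mem_left _ heps
    · change Ideal.Quotient.mk I (AdjoinRoot.liftAlgHom P (aeval X1) Y1 hP (AdjoinRoot.root P)) = f y
      rw [AdjoinRoot.liftAlgHom_root, ← hY0, hY1, Ideal.Quotient.eq]
      have : Y0 - ε * Y0 * h - Y0 = (- (Y0 * h)) * ε := by ring
      rw [this]
      exact I.mul_mem_left _ heps

theorem t_SM : W548.MQ.S_SM := by
  unfold W548.MQ.S_SM
  have := fs
  exact ⟨inferInstance, inferInstance⟩

end W897.MQ
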